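import Mathlib
import Pool.Agent.J6H13.UM.Quad

set_option autoImplicit false

/-!
# Twin prime pairs between consecutive cubes: sequential random models of the primes

The question is whether the number `T(n)` of the pairs of twin primes between `n ^ 3` and `(n + 1) ^ 3` is at least `2`,
and tends to infinity.  We consider random models of the primes with a growing sieve:
the integers are decided one after the other; no `m` with a prime factor `q ∈ P`, `q ≤ z(m)`, is chosen;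
the conditional probability of choosing `m + 1` (without such prime factors) given the past is asymptotic
to `W / log m`, `W = ∏ (1 - 1/q)⁻¹` over the primes `q ∈ P`, `q ≤ z(m + 1)`.  Here `P` is any set of primes.
No independence and no rate is assumed.

(1) For every `ε > 0` there is `δ > 0` such that in all models with `z(m) ≤ m ^ δ` almost surely
`T(n) ≥ n ^ (2 - ε)` for all large `n`.
(2) For every `C` there is `D` such that in all models with `z(m) ≤ (log m) ^ C` almost surely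
`T(n) ≥ n ^ 2 / (log n) ^ D` for all large `n`.

The proof combines the law of large numbers for families of hypergraphs of the starting project `Pool.Agent.R960.Fam`
(which is uniform in polynomially many families), and the fundamental lemma of the sieve, uniform in all systems
(`Pool.Agent.TH882.FL`).
-/

open MeasureTheory Filter
open scoped Topology

namespace Pool.Agent.Results.MP_d610d0_nt.GrowingSieveModels

/-- `m` has no prime factor `q ∈ P`, `q ≤ z m` -/
def Rough (P : Set ℕ) (z : ℕ → ℕ) (m : ℕ) : Prop := ∀ q ∈ P, q.Prime → q ≤ z m → ¬ q ∣ m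

open Classical in
/-- `∏ (1 - 1/q)⁻¹` over the primes `q ≤ x` in `P` -/
noncomputable def W (P : Set ℕ) (x : ℕ) : ℝ :=
  ∏ q ∈ (Finset.Icc 1 x).filter (fun q => q.Prime ∧ q ∈ P), (1 - (q : ℝ)⁻¹)⁻¹

/-- a sequential random model of the primes sieved by the primes `q ∈ P`, `q ≤ z(m)` -/
structure IsModel {Ω : Type} [mΩ : MeasurableSpace Ω] (μ : Measure Ω) (ℱ : Filtration ℕ mΩ)
    (S : ℕ → Set Ω) (P : Set ℕ) (z : ℕ → ℕ) : Prop where
  /-- whether `n` is chosen is known at the time `n` -/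
  adapted : ∀ n, MeasurableSet[ℱ n] (S n)
  /-- no `n` with a prime factor `q ∈ P`, `q ≤ z n`, is chosen -/
  sieved : ∀ n, ¬ Rough P z n → S n = ∅
  /-- the conditional probability of `S (n + 1)` given `ℱ n` is asymptotic to `W P (z (n + 1)) / log n`
  along the `n` with `Rough P z (n + 1)` -/
  density : ∀ᵐ ω ∂μ, Tendsto (fun n : ℕ =>
    (μ[(S (n + 1)).indicator (fun _ => (1 : ℝ)) | ℱ n]) ω * Real.log n / W P (z (n + 1)))
    (atTop ⊓ 𝓟 {n : ℕ | Rough P z (n + 1)}) (𝓝 1)

/-- the number of the `p` with `p, p + 2 ∈ S` and `n ^ 3 < p < p + 2 < (n + 1) ^ 3` -/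
noncomputable def T (S : Set ℕ) (n : ℕ) : ℕ := {p : ℕ | p ∈ S ∧ p + 2 ∈ S ∧ n ^ 3 < p ∧ p + 2 < (n + 1) ^ 3}.ncard

/-- Almost surely there are many pairs of chosen twins between all large consecutive cubes. -/
theorem result :
    (∀ ε : ℝ, 0 < ε → ∃ δ : ℝ, 0 < δ ∧ ∀ (P : Set ℕ) (z : ℕ → ℕ),
      (∀ᶠ n : ℕ in atTop, (z n : ℝ) ≤ (n : ℝ) ^ δ) →
      ∀ {Ω : Type} [mΩ : MeasurableSpace Ω] (μ : Measure Ω) [IsProbabilityMeasure μ]
        (ℱ : Filtration ℕ mΩ) (S : ℕ → Set Ω), IsModel μ ℱ S P z →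
        ∀ᵐ ω ∂μ, ∀ᶠ n : ℕ in atTop, (n : ℝ) ^ (2 - ε) ≤ (T {k | ω ∈ S k} n : ℝ)) ∧
    (∀ C : ℕ, ∃ D : ℕ, ∀ (P : Set ℕ) (z : ℕ → ℕ),
      (∀ᶠ n : ℕ in atTop, (z n : ℝ) ≤ Real.log n ^ C) →
      ∀ {Ω : Type} [mΩ : MeasurableSpace Ω] (μ : Measure Ω) [IsProbabilityMeasure μ]
        (ℱ : Filtration ℕ mΩ) (S : ℕ → Set Ω), IsModel μ ℱ S P z →
        ∀ᵐ ω ∂μ, ∀ᶠ n : ℕ in atTop, (n : ℝ) ^ 2 / Real.log n ^ D ≤ (T {k | ω ∈ S k} n : ℝ)) := by
  have hx6 : ∀ n : ℕ, 2 ≤ n → ((((n + 1) ^ 3 : ℕ) : ℝ)) ≤ (n : ℝ) ^ 6 := by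
    intro n hn
    have h1 : n + 1 ≤ n ^ 2 := by nlinarith
    have h2 : (n + 1) ^ 3 ≤ (n ^ 2) ^ 3 := Nat.pow_le_pow_left h1 3
    have h3 : (n ^ 2) ^ 3 = n ^ 6 := by ring
    rw [h3] at h2
    exact_mod_cast h2
  constructor
  · intro ε hε
    obtain ⟨e, he⟩ : ∃ e : ℝ, e = min ε 1 := ⟨_, rfl⟩
    have he0 : 0 < e := by rw [he]; exact lt_min hε one_pos
    have he1 : e ≤ 1 := he ▸ min_le_right _ _
    have he2 : e ≤ ε := he ▸ min_le_left _ _
    obtain ⟨δ, hδ, h⟩ := Pool.Agent.J6H13.UM.pow_all (e / 6) (by positivity) 2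
    refine ⟨δ, hδ, ?_⟩
    intro P z hz Ω mΩ μ _ ℱ S hM
    filter_upwards [h P z hz ⟨hM.adapted, hM.sieved, hM.density⟩] with ω hω
    have h1 := Pool.Agent.J6H13.UM.twin_cubes P (fun x : ℕ => (x : ℝ) ^ (e / 6)) (fun x : ℕ => (x : ℝ) ^ e) S ω
      (by
        filter_upwards with n
        positivity)
      (by
        filter_upwards [eventually_ge_atTop 2] with n hn
        have h3 := hx6 n hn
        calc ((((n + 1) ^ 3 : ℕ) : ℝ)) ^ (e / 6) ≤ ((n : ℝ) ^ 6) ^ (e / 6) :=
              Real.rpow_le_rpow (by positivity) h3 (by positivity)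
          _ = (n : ℝ) ^ e := by
            rw [← Real.rpow_natCast, ← Real.rpow_mul (Nat.cast_nonneg n)]
            congr 1
            push_cast
            ring)
      (by
        filter_upwards [eventually_ge_atTop 1] with n hn
        have hn1 : (1 : ℝ) ≤ n := by exact_mod_cast hn
        calc (n : ℝ) ^ e ≤ (n : ℝ) ^ (1 : ℝ) := Real.rpow_le_rpow_of_exponent_le hn1 he1
          _ = n := Real.rpow_one _) hω
    filter_upwards [h1, eventually_ge_atTop 1] with n h2 h3
    have hn1 : (1 : ℝ) ≤ n := by exact_mod_cast h3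
    refine le_trans ?_ h2
    rw [le_div_iff₀ (by positivity)]
    calc (n : ℝ) ^ (2 - ε) * (n : ℝ) ^ e = (n : ℝ) ^ (2 - ε + e) := by rw [← Real.rpow_add (by linarith)]
      _ ≤ (n : ℝ) ^ (2 : ℝ) := Real.rpow_le_rpow_of_exponent_le hn1 (by linarith)
      _ = (n : ℝ) ^ 2 := by norm_cast
  · intro C
    obtain ⟨D, h⟩ := Pool.Agent.J6H13.UM.log_all C 2
    refine ⟨D + 1, ?_⟩
    intro P z hz Ω mΩ μ _ ℱ S hM
    filter_upwards [h P z hz ⟨hM.adapted, hM.sieved, hM.density⟩] with ω hω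
    refine Pool.Agent.J6H13.UM.twin_cubes P (fun x : ℕ => Real.log x ^ D) (fun x : ℕ => Real.log x ^ (D + 1)) S ω
      ?_ ?_ ?_ hω
    · filter_upwards [eventually_ge_atTop 1] with n hn
      have : 0 < Real.log (((n + 1) ^ 3 : ℕ) : ℝ) := by
        apply Real.log_pos
        have : 1 < (n + 1) ^ 3 := Nat.one_lt_pow (by norm_num) (by omega)
        exact_mod_cast this
      positivity
    · filter_upwards [Pool.Agent.J6H13.UM.logN.eventually_ge_atTop (6 ^ D), eventually_ge_atTop 2] with n h2 h3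
      have e1 : Real.log (((n + 1) ^ 3 : ℕ) : ℝ) ≤ 6 * Real.log n := by
        have e2 : Real.log (((n : ℝ)) ^ 6) = 6 * Real.log n := by
          rw [Real.log_pow]
          norm_num
        rw [← e2]
        exact Real.log_le_log (by positivity) (hx6 n h3)
      have e3 : 0 ≤ Real.log (((n + 1) ^ 3 : ℕ) : ℝ) := Real.log_natCast_nonneg _
      have e4 : Real.log (((n + 1) ^ 3 : ℕ) : ℝ) ^ D ≤ 6 ^ D * Real.log n ^ D := by
        rw [← mul_pow]
        exact pow_le_pow_left₀ e3 e1 D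
      have e5 : 0 ≤ Real.log (n : ℝ) ^ D := pow_nonneg (Real.log_natCast_nonneg n) D
      show Real.log (((n + 1) ^ 3 : ℕ) : ℝ) ^ D ≤ Real.log n ^ (D + 1)
      rw [pow_succ (Real.log (n : ℝ)) D]
      nlinarith
    · filter_upwards [Pool.Agent.J6H13.UM.log_room (D + 1)] with n h2
      linarith

end Pool.Agent.Results.MP_d610d0_nt.GrowingSieveModels
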