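import Pool.Agent.J6H52.JumpT.Poly

/-!
# A jump inequality for twin primes between consecutive cubes

Let `h > 0` be even (for instance `h = 2`) and `a ≥ 2` (for instance `a = 3`, the cubes). A *rough
pair* is a number `m` such that neither `m` nor `m + h` has a prime factor `≤ m ^ (1 / r)`; for
instance every `m` for which `m` and `m + h` are primes. For a set `A` of rough pairs let
`R(m, y) = #(A ∩ (m, m + y]) / (y / log ^ 2 m)` be its density, in the natural units, in the
interval of length `y` behind `m`.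

For all large `r` there is `C` such that for all `a ≥ 2`, all large `n`, EVERY set `A` of rough pairs
and all `ε > 0` the average, over the integers `m` strictly between `n ^ a` and `(n + 1) ^ a`, of the
number of `ε`-jumps of the function `y ↦ R(m, y)` on the WHOLE range from `log ^ 2 (n ^ a)` to the
length of the interval between the powers is at most `C / ε ^ 2`. So for almost all `m` the density
of the twin primes near `m` changes by more than `ε` only boundedly often over all scales.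

Proof (files `Pool/Agent/J6H52/Jump` and `Pool/Agent/J6H52/JumpT`): the jump inequality for the
averages over `[n, n + y)` of a nonnegative function on the integers in terms of its `L²` norm after
averaging over dyadic intervals of length about `log ^ 2`; this norm is bounded by the sieve, via
the second moment of the number of rough pairs in intervals of the length `log ^ 2`, which is in the
starting files.
-/

set_option autoImplicit false

open Filter Finset

namespace Pool.Agent.Results.MP_d610d0_nt.JumpInequality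

/-- neither `m` nor `m + h` has a prime factor `p ≤ m ^ (1 / r)` -/
def RoughPair (h r m : ℕ) : Prop :=
  ∀ p : ℕ, p.Prime → p ∣ m ∨ p ∣ m + h → (m : ℝ) ^ (1 / (r : ℝ)) < (p : ℝ)

open Classical in
/-- the number of elements of `A` in `(a, b]` -/
noncomputable def cnt (A : Set ℕ) (a b : ℕ) : ℕ := ((Ioc a b).filter (fun m => m ∈ A)).card

/-- the density of `A` in `(m, m + y]`, in units of `1 / log ^ 2 m` -/
noncomputable def R (A : Set ℕ) (m : ℕ) (y : ℝ) : ℝ :=
  (cnt A m (m + ⌊y⌋₊) : ℝ) / (y / Real.log m ^ 2)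

/-- `F` has (at least) `J` jumps larger than `ε` on `[a, b]`: there are
`a ≤ s 0 < t 0 ≤ s 1 < t 1 ≤ ... ≤ s (J - 1) < t (J - 1) ≤ b` with `|F (t i) - F (s i)| > ε`. -/
def Jumps (F : ℝ → ℝ) (ε a b : ℝ) (J : ℕ) : Prop :=
  ∃ s t : ℕ → ℝ, (∀ i < J, a ≤ s i ∧ s i < t i ∧ t i ≤ b ∧ ε < |F (t i) - F (s i)|) ∧
    ∀ i, i + 1 < J → t i ≤ s (i + 1)

open Classical in
/-- the integers strictly between `n ^ a` and `(n + 1) ^ a` for which the density of `A` takes two
values with a difference larger than `ε` at lengths between `S` and `T` -/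
noncomputable def unstable (A : Set ℕ) (n a : ℕ) (ε S T : ℝ) : Finset ℕ :=
  (Ioo (n ^ a) ((n + 1) ^ a)).filter (fun m : ℕ =>
    ∃ y y' : ℝ, S ≤ y ∧ y ≤ y' ∧ y' ≤ T ∧ ε < |R A m y' - R A m y|)

/-- there is no local obstruction for a pair with an even difference -/
lemma adm (h : ℕ) (h2 : 2 ∣ h) (p : ℕ) (hp : p.Prime) :
    ∃ m : ℕ, ∀ i : Fin 2, ¬ p ∣ m + ![0, h] i := by
  obtain ⟨k, rfl⟩ := h2
  by_cases h3 : p = 2
  · subst h3
    refine ⟨1, fun x => ?_⟩
    fin_cases x
    · simp
    · simp only [Fin.mk_one, Matrix.cons_val_one, Matrix.cons_val_fin_one]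
      omega
  · by_cases h4 : p ∣ 1 + 2 * k
    · refine ⟨2, fun x => ?_⟩
      fin_cases x
      · intro hd
        exact h3 ((Nat.prime_dvd_prime_iff_eq hp Nat.prime_two).1 (by simpa using hd))
      · intro hd
        have : p ∣ 1 := by
          have h5 : 2 + 2 * k = (1 + 2 * k) + 1 := by ring
          have hd' : p ∣ 2 + 2 * k := hd
          rw [h5] at hd'
          exact (Nat.dvd_add_right h4).1 hd'
        exact hp.one_lt.ne' (Nat.dvd_one.1 this)
    · refine ⟨1, fun x => ?_⟩
      fin_cases x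
      · intro hd
        exact hp.one_lt.ne' (Nat.dvd_one.1 (by simpa using hd))
      · exact h4

/-- **A jump inequality for twin primes between consecutive cubes** (the case `h = 2`, `a = 3`): for
all even `h > 0` and all large `r` there is `C` such that for all `a ≥ 2`, all large `n`, all sets
`A` of rough pairs and all `ε > 0`:
(1) if for every integer `m` strictly between `n ^ a` and `(n + 1) ^ a` the function `y ↦ R(m, y)`
has `J(m)` jumps larger than `ε` for `y` between `log ^ 2 (n ^ a)` and `(n + 1) ^ a - 1 - n ^ a`,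
then the sum of the `J(m)` is at most `C / ε ^ 2` times `(n + 1) ^ a - n ^ a`;
(2) for any lengths `log ^ 2 (n ^ a) ≤ T 0 ≤ T 1 ≤ ... ≤ T s ≤ (n + 1) ^ a - 1 - n ^ a` the numbers
of the `m` for which `R(m, y)` takes two values with difference larger than `ε` for `y` between
`T i` and `T (i + 1)` have sum over `i < s` at most `C / ε ^ 2` times `(n + 1) ^ a - n ^ a`;
(3) so for `δ > 0` the proportion of these `m` exceeds `δ` for at most `C / (δ ε ^ 2)` of the `i`. -/
theorem result (h : ℕ) (h0 : 0 < h) (h2 : 2 ∣ h) :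
    ∃ r0 : ℕ, 2 ≤ r0 ∧ ∀ r : ℕ, r0 ≤ r → ∃ C : ℝ, 0 < C ∧ ∀ a : ℕ, 2 ≤ a → ∀ᶠ n : ℕ in atTop,
      ∀ A : Set ℕ, (∀ m ∈ A, RoughPair h r m) → ∀ ε : ℝ, 0 < ε →
      (∀ J : ℕ → ℕ, (∀ m ∈ Ioo (n ^ a) ((n + 1) ^ a), Jumps (R A m) ε
          (Real.log ((n ^ a : ℕ) : ℝ) ^ 2) ((n + 1) ^ a - 1 - n ^ a : ℕ) (J m)) →
        ∑ m ∈ Ioo (n ^ a) ((n + 1) ^ a), (J m : ℝ) ≤
          C / ε ^ 2 * (((n : ℝ) + 1) ^ a - (n : ℝ) ^ a)) ∧
      (∀ (s : ℕ) (T : ℕ → ℝ), Real.log ((n ^ a : ℕ) : ℝ) ^ 2 ≤ T 0 →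
        (∀ i < s, T i ≤ T (i + 1)) → T s ≤ ((n + 1) ^ a - 1 - n ^ a : ℕ) →
        ∑ i ∈ range s, ((unstable A n a ε (T i) (T (i + 1))).card : ℝ) ≤
          C / ε ^ 2 * (((n : ℝ) + 1) ^ a - (n : ℝ) ^ a) ∧
        ∀ δ : ℝ, 0 < δ → (((range s).filter fun i =>
          δ * (((n : ℝ) + 1) ^ a - (n : ℝ) ^ a) <
            ((unstable A n a ε (T i) (T (i + 1))).card : ℝ)).card : ℝ) ≤ C / (δ * ε ^ 2)) := by
  classical
  obtain ⟨r0, hr0, hmain⟩ := Pool.Agent.J6H52.JumpT.main_tuple (k := 2) (by norm_num) ![0, h]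
    (by
      intro i j hij
      fin_cases i <;> fin_cases j <;> simp_all <;> omega)
    (fun p hp => adm h h2 p hp) (1 / 2) (by norm_num) (by norm_num)
  refine ⟨r0, hr0, fun r hr => ?_⟩
  obtain ⟨C, hC, h1⟩ := hmain r hr
  refine ⟨C, hC, fun a ha => ?_⟩
  have ht : Tendsto (fun n : ℕ => n ^ a) atTop atTop := tendsto_pow_atTop (by omega)
  filter_upwards [ht.eventually h1, eventually_ge_atTop (2 ^ (a + 1))] with n h3 hn
  intro A hA ε hε
  obtain ⟨b1, b2, b3, b4, b5⟩ := Pool.Agent.J6H52.JumpT.gap_facts a n ha hn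
  have hB := h3 _ b4 b3 A fun m hm i p hp hd => hA m hm p hp (by
    fin_cases i
    · exact Or.inl (by simpa using hd)
    · exact Or.inr hd)
  have hle : (((n + 1) ^ a - 1 - n ^ a : ℕ) : ℝ) ≤ ((n : ℝ) + 1) ^ a - (n : ℝ) ^ a := by
    have h4 : n ^ a + ((n + 1) ^ a - 1 - n ^ a) ≤ (n + 1) ^ a := by omega
    have h5 : (((n ^ a + ((n + 1) ^ a - 1 - n ^ a) : ℕ)) : ℝ) ≤ (((n + 1) ^ a : ℕ) : ℝ) := by
      exact_mod_cast h4
    rw [Nat.cast_add] at h5
    push_cast at h5 ⊢
    linarith
  have hCe : 0 ≤ C / ε ^ 2 := by positivity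
  have hle2 := mul_le_mul_of_nonneg_left hle hCe
  refine ⟨fun J hJ => ?_, fun s T hT0 hT hTs => ?_⟩
  · rw [b5] at hJ ⊢
    exact (hB ε hε J hJ).trans hle2
  · have h6 : ∑ i ∈ range s, ((unstable A n a ε (T i) (T (i + 1))).card : ℝ) ≤
        C / ε ^ 2 * (((n : ℝ) + 1) ^ a - (n : ℝ) ^ a) := by
      refine le_trans ?_ hle2
      have h7 := hB.osc hε s T hT0 hT hTs
      rw [← b5] at h7
      exact h7
    refine ⟨h6, fun δ hδ => ?_⟩
    have hpos : 0 < ((n : ℝ) + 1) ^ a - (n : ℝ) ^ a := by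
      have : (n : ℝ) ^ a < ((n : ℝ) + 1) ^ a :=
        pow_lt_pow_left₀ (by linarith) (Nat.cast_nonneg n) (by omega)
      linarith
    set Z : ℝ := ((n : ℝ) + 1) ^ a - (n : ℝ) ^ a with hZ
    have h8 : (((range s).filter fun i =>
        δ * Z < ((unstable A n a ε (T i) (T (i + 1))).card : ℝ)).card : ℝ) * (δ * Z) ≤
        C / ε ^ 2 * Z := by
      refine le_trans ?_ h6
      rw [← nsmul_eq_mul, ← sum_const]
      refine le_trans (sum_le_sum fun i hi => (mem_filter.1 hi).2.le) ?_
      exact sum_le_sum_of_subset_of_nonneg (filter_subset _ _) fun _ _ _ => Nat.cast_nonneg _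
    rw [le_div_iff₀ (by positivity)]
    have h9 : (((range s).filter fun i =>
        δ * Z < ((unstable A n a ε (T i) (T (i + 1))).card : ℝ)).card : ℝ) * (δ * Z) * ε ^ 2 ≤
        C / ε ^ 2 * Z * ε ^ 2 := by gcongr
    have h10 : C / ε ^ 2 * Z * ε ^ 2 = C * Z := by field_simp
    rw [h10] at h9
    nlinarith [h9, hpos]

end Pool.Agent.Results.MP_d610d0_nt.JumpInequality
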