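import Pool.Agent.R490.Tup
import Pool.Agent.TH977.PW.Prog

set_option autoImplicit false

/-!
# Narrow progressions of regular twin primes between consecutive cubes

Let `h > 0` be even (for instance `h = 2`) and `a ≥ 2` (for instance `a = 3`, the cubes). A *rough
pair* is a number `m` such that neither `m` nor `m + h` has a prime factor `≤ m ^ (1 / r)`; for
instance every `m` for which `m` and `m + h` are primes. For all large `r`:

(1) There are at least `κ n ^ (a - 1) / log ^ 2 n` rough pairs `m` with at most `r` prime factors of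
`m` and of `m + h` between all large consecutive powers `n ^ a` and `(n + 1) ^ a`.

(2) Let `A` be an ARBITRARY set of rough pairs (for instance the set of all `p` such that `p` and
`p + h` are prime). For all `l ≥ 2` and `ε > 0` and all large `n`, all but
`ε n ^ (a - 1) / log ^ 2 n` of the elements of `A` between `n ^ a` and `(n + 1) ^ a` are terms of
`l`-term arithmetic progressions, with difference at most a fixed power of `log n`, which consist of
regular points of `A` between `n ^ a` and `(n + 1) ^ a`. Here `m` is a regular point of `A` if ALL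
windows around `m` of a length between `log ^ 2 n / c` and `(n + 1) ^ a - n ^ a` contain the right
order of elements of `A`, and `A` has a constant density up to `δ` at all but `B` dyadic scales.

The new point is that the progressions consist of regular points of the set; the parts are the
library theorems `Pool.Agent.R490.Tu.narPow` (narrow progressions) and
`Pool.Agent.TH977.PW.final_prog` (regular points and the lower bound).
-/

open Finset Filter

namespace Pool.Agent.Results.MP_d610d0_nt.NarrowProgressions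

/-- neither `m` nor `m + h` has a prime factor `p ≤ m ^ (1 / r)` -/
def RoughPair (h r m : ℕ) : Prop :=
  ∀ p : ℕ, p.Prime → p ∣ m ∨ p ∣ m + h → (m : ℝ) ^ (1 / (r : ℝ)) < (p : ℝ)

open Classical in
/-- the number of elements of `A` in `(a, b]` -/
noncomputable def cnt (A : Set ℕ) (a b : ℕ) : ℕ := ((Ioc a b).filter (fun m => m ∈ A)).card

/-- All intervals `(m - s, m + t]` with `s, t ≤ Y` of length at least `log ^ 2 X / c` contain the
right order of elements of `A`. -/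
def RightOrder (A : Set ℕ) (c : ℝ) (X Y m : ℕ) : Prop :=
  ∀ s t : ℕ, s ≤ Y → t ≤ Y → Real.log X ^ 2 ≤ c * (s + t) →
    c * (s + t) / Real.log X ^ 2 ≤ cnt A (m - s) (m + t) ∧
      (cnt A (m - s) (m + t) : ℝ) ≤ (s + t) / (c * Real.log X ^ 2)

/-- Up to `δ`, `A` has a constant density on both sides of `m` up to the distance `2 ^ j`. -/
def ConstantDensity (A : Set ℕ) (c δ : ℝ) (X m j : ℕ) : Prop :=
  ∃ lam : ℝ, c ≤ lam ∧ lam ≤ 1 / c ∧ ∀ s t : ℕ, s ≤ 2 ^ j → t ≤ 2 ^ j →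
    |(cnt A (m - s) (m + t) : ℝ) - lam * (s + t) / Real.log X ^ 2| ≤ δ * 2 ^ j / Real.log X ^ 2

open Classical in
/-- `m` is a regular point of `A`: `RightOrder`, and `ConstantDensity` at all but `B` of the scales
`log ^ 2 X ≤ 2 ^ j ≤ Y`. -/
def Regular (A : Set ℕ) (c δ : ℝ) (B X Y m : ℕ) : Prop :=
  RightOrder A c X Y m ∧
    ((Finset.range (Nat.log 2 Y + 1)).filter (fun j => Real.log X ^ 2 ≤ (2 : ℝ) ^ j ∧
      ¬ ConstantDensity A c δ X m j)).card ≤ B

/-- `m` is a term of an `l`-term arithmetic progression, with a difference `d`, `1 ≤ d ≤ D`, of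
elements of `S` strictly between `a` and `b`. -/
def InProgression (S : Set ℕ) (l : ℕ) (D : ℝ) (a b m : ℕ) : Prop :=
  ∃ u d : ℕ, 1 ≤ d ∧ (d : ℝ) ≤ D ∧ (∀ i < l, u + i * d ∈ S ∧ a < u + i * d ∧ u + i * d < b) ∧
    ∃ i < l, m = u + i * d

/-- the regular points of `A`, with respect to the windows of a length up to the distance of the
powers `n ^ a` and `(n + 1) ^ a` -/
def RegularPoints (A : Set ℕ) (c δ : ℝ) (B n a : ℕ) : Set ℕ :=
  {m | m ∈ A ∧ Regular A c δ B (n ^ a) ((n + 1) ^ a - 1 - n ^ a) m}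

/-- there is no local obstruction for a pair with an even difference -/
lemma adm (h : ℕ) (h2 : 2 ∣ h) (p : ℕ) (hp : p.Prime) :
    ∃ m : ℕ, ∀ x ∈ ({0, h} : Finset ℕ), ¬ p ∣ m + x := by
  obtain ⟨k, rfl⟩ := h2
  by_cases h3 : p = 2
  · subst h3
    refine ⟨1, fun x hx => ?_⟩
    simp only [mem_insert, mem_singleton] at hx
    rcases hx with rfl | rfl <;> omega
  · by_cases h4 : p ∣ 1 + 2 * k
    · refine ⟨2, fun x hx => ?_⟩
      simp only [mem_insert, mem_singleton] at hx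
      rcases hx with rfl | rfl
      · intro hd
        exact h3 ((Nat.prime_dvd_prime_iff_eq hp Nat.prime_two).1 (by simpa using hd))
      · intro hd
        have : p ∣ 1 := by
          have h5 : 2 + 2 * k = (1 + 2 * k) + 1 := by ring
          rw [h5] at hd
          exact (Nat.dvd_add_right h4).1 hd
        exact hp.one_lt.ne' (Nat.dvd_one.1 this)
    · refine ⟨1, fun x hx => ?_⟩
      simp only [mem_insert, mem_singleton] at hx
      rcases hx with rfl | rfl
      · intro hd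
        exact hp.one_lt.ne' (Nat.dvd_one.1 (by simpa using hd))
      · exact h4

open Classical in
lemma mem_fil (A : Set ℕ) (s : Finset ℕ) (m : ℕ) :
    m ∈ s.filter (fun m => m ∈ A) ↔ m ∈ s ∧ m ∈ A := Finset.mem_filter

/-- the distance of consecutive powers -/
lemma gap_facts (a n : ℕ) (ha : 2 ≤ a) (hn : 2 ^ (a + 1) ≤ n) :
    n ^ a + ((n + 1) ^ a - 1 - n ^ a) = (n + 1) ^ a - 1 ∧
      n ^ (a - 1) ≤ (n + 1) ^ a - 1 - n ^ a ∧
      (n + 1) ^ a - 1 - n ^ a ≤ 2 ^ a * n ^ (a - 1) ∧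
      2 * ((n + 1) ^ a - 1 - n ^ a) ≤ n ^ a ∧
      ((n ^ a : ℕ) : ℝ) ^ (1 / 2 : ℝ) ≤ (((n + 1) ^ a - 1 - n ^ a : ℕ) : ℝ) ∧
      Ioo (n ^ a) ((n + 1) ^ a) = Ioc (n ^ a) (n ^ a + ((n + 1) ^ a - 1 - n ^ a)) := by
  have h2a : 1 ≤ 2 ^ (a + 1) := Nat.one_le_two_pow
  have hn1 : 1 ≤ n := h2a.trans hn
  obtain ⟨b1, b2, b3⟩ := Pool.Agent.R490.Tu.between a n ha hn1
  obtain ⟨Y, hY⟩ : ∃ Y, Y = (n + 1) ^ a - 1 - n ^ a := ⟨_, rfl⟩
  rw [← hY] at b1 b2 b3 ⊢
  refine ⟨b1, b2, b3, ?_, ?_, ?_⟩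
  · calc 2 * Y ≤ 2 * (2 ^ a * n ^ (a - 1)) := Nat.mul_le_mul_left _ b3
      _ = 2 ^ (a + 1) * n ^ (a - 1) := by ring
      _ ≤ n * n ^ (a - 1) := Nat.mul_le_mul_right _ hn
      _ = n ^ a := by rw [← pow_succ']; congr 1; omega
  · have e1 : (n : ℝ) ^ (a - 1) ≤ Y := by exact_mod_cast b2
    refine le_trans ?_ e1
    have hn0 : (1 : ℝ) ≤ n := by exact_mod_cast hn1
    push_cast
    rw [← Real.rpow_natCast, ← Real.rpow_mul (by linarith), ← Real.rpow_natCast]
    apply Real.rpow_le_rpow_of_exponent_le hn0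
    have e2 : ((a - 1 : ℕ) : ℝ) = (a : ℝ) - 1 := by
      rw [Nat.cast_sub (by omega)]
      simp
    rw [e2]
    have e3 : (2 : ℝ) ≤ a := by exact_mod_cast ha
    linarith
  · ext m
    rw [mem_Ioo, mem_Ioc, b1]
    have : 1 ≤ (n + 1) ^ a := Nat.one_le_pow _ _ (by omega)
    omega

open Classical in
/-- **Narrow progressions of regular twin primes between consecutive cubes** (the case `h = 2`,
`a = 3`). -/
theorem result (h : ℕ) (h0 : 0 < h) (h2 : 2 ∣ h) (a : ℕ) (ha : 2 ≤ a) :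
    ∃ r0 : ℕ, 2 ≤ r0 ∧ ∀ r : ℕ, r0 ≤ r →
      (∃ κ : ℝ, 0 < κ ∧ ∀ᶠ n : ℕ in atTop,
        κ * (n ^ (a - 1) / Real.log n ^ 2) ≤
          (((Ioo (n ^ a) ((n + 1) ^ a)).filter (fun m : ℕ => RoughPair h r m ∧
            m.primeFactorsList.length ≤ r ∧ (m + h).primeFactorsList.length ≤ r)).card : ℝ)) ∧
      ∀ ε : ℝ, 0 < ε → ∃ c : ℝ, 0 < c ∧ ∀ δ : ℝ, 0 < δ → ∃ B : ℕ, ∀ l : ℕ, 2 ≤ l → ∃ D : ℕ,
        ∀ᶠ n : ℕ in atTop, ∀ A : Set ℕ, (∀ m ∈ A, RoughPair h r m) →
          (((Ioo (n ^ a) ((n + 1) ^ a)).filter (fun m : ℕ => m ∈ A ∧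
            ¬ InProgression (RegularPoints A c δ B n a) l (Real.log n ^ D) (n ^ a) ((n + 1) ^ a)
              m)).card : ℝ) ≤ ε * (n ^ (a - 1) / Real.log n ^ 2) := by
  have hc : ({0, h} : Finset ℕ).card = 2 := by
    rw [card_insert_of_notMem (by simp; omega), card_singleton]
  have hrg : ∀ r m : ℕ, RoughPair h r m ↔ Pool.Agent.R490.Tu.Rg {0, h} r m := by
    intro r m
    unfold RoughPair Pool.Agent.R490.Tu.Rg
    constructor
    · intro H x hx p hp hd
      simp only [mem_insert, mem_singleton] at hx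
      rcases hx with rfl | rfl
      · exact H p hp (Or.inl (by simpa using hd))
      · exact H p hp (Or.inr hd)
    · intro H p hp hd
      rcases hd with hd | hd
      · exact H 0 (by simp) p hp (by simpa using hd)
      · exact H h (by simp) p hp hd
  have hlog : Tendsto (fun n : ℕ => Real.log (n : ℝ)) atTop atTop :=
    Real.tendsto_log_atTop.comp tendsto_natCast_atTop_atTop
  have hapos : (0 : ℝ) < a := by exact_mod_cast (by omega : 0 < a)
  obtain ⟨r0, hr0, hfin⟩ := Pool.Agent.TH977.PW.final_prog {0, h} ⟨0, by simp⟩ 1 0 one_pos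
    (fun h _ => Nat.coprime_one_right _) (fun p hp => adm h h2 p hp)
    (fun r => {m | Pool.Agent.R490.Tu.Rg {0, h} r m})
    (fun r => {m | Pool.Agent.R490.Tu.Rg {0, h} r m ∧
      ∀ x ∈ ({0, h} : Finset ℕ), (m + x).primeFactorsList.length ≤ r}) 2 hc
    (fun r m _ hm => hm)
    (fun r _ => Eventually.of_forall (fun m _ h1 h2 => ⟨h1, h2⟩)) (1 / 2) (by norm_num)
    (by norm_num)
  refine ⟨r0, hr0, fun r hr => ⟨?_, ?_⟩⟩
  · obtain ⟨⟨κ, hκ, h1⟩, -⟩ := hfin r hr
    refine ⟨κ / a ^ 2, by positivity, ?_⟩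
    have h3 := (Pool.Agent.R490.Tu.tendsto_pow_nat a (by omega)).eventually h1
    filter_upwards [h3, eventually_ge_atTop (2 ^ (a + 1)), hlog.eventually_ge_atTop (1 : ℝ)] with
      n h4 hn hlogn
    obtain ⟨b1, b2, b3, b4, b5, b6⟩ := gap_facts a n ha hn
    have h5 := h4 _ b5 (by omega)
    have elog : Real.log ((n ^ a : ℕ) : ℝ) = a * Real.log n := by
      push_cast
      rw [Real.log_pow]
    obtain ⟨Y, hY⟩ : ∃ Y, Y = (n + 1) ^ a - 1 - n ^ a := ⟨_, rfl⟩
    rw [← hY] at b2 b6 h5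
    have e7 : κ / a ^ 2 * (n ^ (a - 1) / Real.log n ^ 2) ≤
        κ * Y / Real.log ((n ^ a : ℕ) : ℝ) ^ 2 := by
      rw [elog, mul_pow]
      have e1 : (n : ℝ) ^ (a - 1) ≤ Y := by exact_mod_cast b2
      have hlp : (0 : ℝ) < Real.log n := by linarith
      rw [show κ / a ^ 2 * (n ^ (a - 1) / Real.log n ^ 2) =
        κ * n ^ (a - 1) / (a ^ 2 * Real.log n ^ 2) by field_simp]
      gcongr
    refine e7.trans (h5.trans ?_)
    rw [b6]
    unfold Pool.Agent.TH977.PW.N
    norm_cast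
    apply card_le_card
    intro m hm
    have hm' := (mem_fil _ _ _).1 hm
    refine Finset.mem_filter.2 ⟨hm'.1, (hrg r m).2 hm'.2.1, ?_, hm'.2.2 h (by simp)⟩
    simpa using hm'.2.2 0 (by simp)
  · intro ε hε
    obtain ⟨-, h1⟩ := hfin r hr
    obtain ⟨c, hc0, h3⟩ := h1 (ε / 2 ^ (a + 1)) (by positivity)
    refine ⟨c, hc0, fun δ hδ => ?_⟩
    obtain ⟨B, h4⟩ := h3 δ hδ
    refine ⟨B, fun l hl => ?_⟩
    obtain ⟨D, hD⟩ := Pool.Agent.R490.Tu.narPow {0, h} ⟨0, by simp⟩ (adm h h2) a ha r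
      (hr0.trans hr) l hl (ε / 2) (by positivity)
    refine ⟨D, ?_⟩
    have h5 := (Pool.Agent.R490.Tu.tendsto_pow_nat a (by omega)).eventually h4
    filter_upwards [h5, hD, eventually_ge_atTop (2 ^ (a + 1)), hlog.eventually_ge_atTop (1 : ℝ)]
      with n h6 h7 hn hlogn
    intro A hA
    obtain ⟨b1, b2, b3, b4, b5, b6⟩ := gap_facts a n ha hn
    have h8 := h6 _ b5 b4 A (fun m hm => (hrg r m).1 (hA m hm))
    have h9 := h7 (RegularPoints A c δ B n a) (fun m hm => (hrg r m).1 (hA m hm.1))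
    rw [hc] at h9
    obtain ⟨Y, hY⟩ : ∃ Y, Y = (n + 1) ^ a - 1 - n ^ a := ⟨_, rfl⟩
    have elog : Real.log ((n ^ a : ℕ) : ℝ) = a * Real.log n := by
      push_cast
      rw [Real.log_pow]
    have hlp : (0 : ℝ) < Real.log n := by linarith
    have ha1 : (1 : ℝ) ≤ a := by exact_mod_cast (by omega : 1 ≤ a)
    have e8 : ((Pool.Agent.TH977.PW.N (Pool.Agent.TH977.PW.Irregular A 2 c δ B (n ^ a)
        ((n + 1) ^ a - 1 - n ^ a)) (n ^ a) (n ^ a + ((n + 1) ^ a - 1 - n ^ a)) : ℕ) : ℝ) ≤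
        ε / 2 * (n ^ (a - 1) / Real.log n ^ 2) := by
      refine h8.trans ?_
      rw [← hY] at b3 ⊢
      have e1 : (Y : ℝ) ≤ 2 ^ a * (n : ℝ) ^ (a - 1) := by exact_mod_cast b3
      have e2 : Real.log n ^ 2 ≤ Real.log ((n ^ a : ℕ) : ℝ) ^ 2 := by
        rw [elog]
        apply pow_le_pow_left₀ hlp.le
        nlinarith
      calc ε / 2 ^ (a + 1) * Y / Real.log ((n ^ a : ℕ) : ℝ) ^ 2
          ≤ ε / 2 ^ (a + 1) * (2 ^ a * (n : ℝ) ^ (a - 1)) / Real.log n ^ 2 := by gcongr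
        _ = ε / 2 * (n ^ (a - 1) / Real.log n ^ 2) := by
          rw [pow_succ]
          field_simp
    have hreg : ∀ m, m ∈ A → m ∉ Pool.Agent.TH977.PW.Irregular A 2 c δ B (n ^ a)
        ((n + 1) ^ a - 1 - n ^ a) → m ∈ RegularPoints A c δ B n a := by
      intro m hmA hm
      refine ⟨hmA, ?_⟩
      by_contra hcon
      exact hm ⟨hmA, hcon⟩
    have hsub : (Ioo (n ^ a) ((n + 1) ^ a)).filter (fun m : ℕ => m ∈ A ∧
        ¬ InProgression (RegularPoints A c δ B n a) l (Real.log n ^ D) (n ^ a) ((n + 1) ^ a) m) ⊆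
        (Ioc (n ^ a) (n ^ a + ((n + 1) ^ a - 1 - n ^ a))).filter (fun m : ℕ =>
          m ∈ Pool.Agent.TH977.PW.Irregular A 2 c δ B (n ^ a) ((n + 1) ^ a - 1 - n ^ a)) ∪
        (Ioo (n ^ a) ((n + 1) ^ a)).filter (fun m : ℕ => m ∈ RegularPoints A c δ B n a ∧
          ¬ Pool.Agent.R490.Tu.InP (RegularPoints A c δ B n a) l (Real.log n ^ D) (n ^ a)
            ((n + 1) ^ a) m) := by
      intro m hm
      rw [mem_filter] at hm
      rw [mem_union, mem_filter, mem_filter]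
      by_cases hi : m ∈ Pool.Agent.TH977.PW.Irregular A 2 c δ B (n ^ a)
          ((n + 1) ^ a - 1 - n ^ a)
      · left
        rw [← b6]
        exact ⟨hm.1, hi⟩
      · right
        exact ⟨hm.1, hreg m hm.2.1 hi, hm.2.2⟩
    have hcard := (Finset.card_le_card hsub).trans (Finset.card_union_le _ _)
    have hcard' : (((Ioo (n ^ a) ((n + 1) ^ a)).filter (fun m : ℕ => m ∈ A ∧
        ¬ InProgression (RegularPoints A c δ B n a) l (Real.log n ^ D) (n ^ a) ((n + 1) ^ a)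
          m)).card : ℝ) ≤ ((Pool.Agent.TH977.PW.N (Pool.Agent.TH977.PW.Irregular A 2 c δ B (n ^ a)
        ((n + 1) ^ a - 1 - n ^ a)) (n ^ a) (n ^ a + ((n + 1) ^ a - 1 - n ^ a)) : ℕ) : ℝ) +
        (((Ioo (n ^ a) ((n + 1) ^ a)).filter (fun m : ℕ => m ∈ RegularPoints A c δ B n a ∧
          ¬ Pool.Agent.R490.Tu.InP (RegularPoints A c δ B n a) l (Real.log n ^ D) (n ^ a)
            ((n + 1) ^ a) m)).card : ℝ) := by
      unfold Pool.Agent.TH977.PW.N
      exact_mod_cast hcard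
    linarith [hcard', e8, h9]

end Pool.Agent.Results.MP_d610d0_nt.NarrowProgressions
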