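import Pool.Agent.J6H40.KT.All

set_option autoImplicit false

/-!
# Twin primes between consecutive cubes and sharp gap laws in sequential random models of the primes

Question 2 asks whether the number `T(n)` of the twin pairs between `n³` and `(n + 1)³` tends to infinity.  We
consider all sequential random models of the primes with a slowly growing sieve: the integers are decided one after
the other; no `m` with a prime factor `q ≤ z(m)` is chosen; the conditional probability of choosing `m` (without such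
prime factors) given the past is asymptotic to `W / log m`, `W = ∏_{q ≤ z(m)} (1 - 1/q)⁻¹`.  Here `z` is monotone with
`z(m) = (log m) ^ o(1)`.  No independence and no rate is assumed.

In all these models, for every admissible `k`-tuple `H`, with `σ` the limit of the truncated singular series, almost
surely

* the number of `n ∈ (x, x + y]` with all `n + h` chosen is asymptotic to `σ y / (log x)^k`, uniformly for
  `(log x)^(k + 2) ≤ y ≤ x`; in particular `T(n) ~ (σ/3) n² / (log n)²` for the twin pairs between `n³` and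
  `(n + 1)³`;
* the sharp law of the maximal gaps: the upper limit of the distance from `x` to the next such `n`, divided by
  `(log x)^(k + 1)`, is `1/σ`.
-/

open MeasureTheory Filter
open scoped Topology ENNReal

namespace Pool.Agent.Results.MP_d610d0_nt.SharpLawsInModels

/-- `m` has no prime factor `q ≤ z m` -/
def Rough (z : ℕ → ℕ) (m : ℕ) : Prop := ∀ q : ℕ, q.Prime → q ≤ z m → ¬ q ∣ m

/-- `∏ (1 - 1/q)⁻¹` over the primes `q ≤ x` -/
noncomputable def W (x : ℕ) : ℝ := ∏ q ∈ (Finset.Icc 1 x).filter Nat.Prime, (1 - (q : ℝ)⁻¹)⁻¹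

/-- a sequential random model of the primes, sieved by the primes `q ≤ z(m)`: `S n` is the event that `n` is
chosen -/
structure IsModel {Ω : Type} [mΩ : MeasurableSpace Ω] (μ : Measure Ω) (ℱ : Filtration ℕ mΩ)
    (S : ℕ → Set Ω) (z : ℕ → ℕ) : Prop where
  /-- whether `n` is chosen is known at the time `n` -/
  adapted : ∀ n, MeasurableSet[ℱ n] (S n)
  /-- no `n` with a prime factor `q ≤ z n` is chosen -/
  sieved : ∀ n, ¬ Rough z n → S n = ∅
  /-- the conditional probability of `S (n + 1)` given `ℱ n` is asymptotic to `W (z (n + 1)) / log (n + 1)`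
  along the `n` with `Rough z (n + 1)` -/
  density : ∀ᵐ ω ∂μ, Tendsto (fun n : ℕ =>
    (μ[(S (n + 1)).indicator (fun _ => (1 : ℝ)) | ℱ n]) ω * Real.log ((n + 1 : ℕ) : ℝ) / W (z (n + 1)))
    (atTop ⊓ 𝓟 {n : ℕ | Rough z (n + 1)}) (𝓝 1)

/-- the number of residue classes mod `q` met by `H` -/
def nu (H : Finset ℕ) (q : ℕ) : ℕ := (H.image (fun h => h % q)).card

/-- `H` is nonempty and covers no full residue system modulo a prime -/
def Admissible (H : Finset ℕ) : Prop := H.Nonempty ∧ ∀ q : ℕ, q.Prime → nu H q < q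

/-- the truncated singular series `∏_{q ≤ v} (1 - ν(q)/q) (1 - 1/q)^(-k)`, `k = |H|` -/
noncomputable def Sg (H : Finset ℕ) (v : ℕ) : ℝ :=
  W v ^ H.card * ∏ q ∈ (Finset.Icc 1 v).filter Nat.Prime, (1 - (nu H q : ℝ) / q)

open Classical in
/-- the number of `n ∈ (x, x + y]` such that all `n + h`, `h ∈ H`, are chosen -/
noncomputable def cnt {Ω : Type} (S : ℕ → Set Ω) (H : Finset ℕ) (ω : Ω) (x y : ℕ) : ℕ :=
  ((Finset.Ioc x (x + y)).filter (fun n => ∀ h ∈ H, ω ∈ S (n + h))).card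

/-- the distance from `x` to the next `n > x` such that all `n + h`, `h ∈ H`, are chosen (`∞` if there is none) -/
noncomputable def gap {Ω : Type} (S : ℕ → Set Ω) (H : Finset ℕ) (ω : Ω) (x : ℕ) : ℝ≥0∞ :=
  ⨅ n ∈ {n : ℕ | x < n ∧ ∀ h ∈ H, ω ∈ S (n + h)}, ((n - x : ℕ) : ℝ≥0∞)

/-- `T(n)` in the model: the number of `p` with `p`, `p + 2` chosen and `n³ < p < p + 2 < (n + 1)³` -/
noncomputable def T {Ω : Type} (S : ℕ → Set Ω) (ω : Ω) (n : ℕ) : ℕ :=
  {p : ℕ | ω ∈ S p ∧ ω ∈ S (p + 2) ∧ n ^ 3 < p ∧ p + 2 < (n + 1) ^ 3}.ncard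

/-- In every sequential random model with a slowly growing sieve: (1) for every admissible `H` with `k` elements,
with `σ > 0` the limit of the truncated singular series, almost surely the number of the `n ∈ (x, x + y]` with all
`n + h` chosen is asymptotic to `σ y / (log x)^k` uniformly for `(log x)^(k + 2) ≤ y ≤ x`, and the upper limit of
`gap / (log x)^(k + 1)` is `1/σ`; (2) almost surely `T(n) ~ (σ/3) n² / (log n)²`, with `σ` for `H = {0, 2}`. -/
theorem result (z : ℕ → ℕ) (hz : Monotone z)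
    (hz2 : ∀ δ : ℝ, 0 < δ → ∀ᶠ m : ℕ in atTop, (z m : ℝ) ≤ Real.log m ^ δ) {Ω : Type}
    [mΩ : MeasurableSpace Ω] (μ : Measure Ω) [IsProbabilityMeasure μ] (ℱ : Filtration ℕ mΩ)
    (S : ℕ → Set Ω) (hM : IsModel μ ℱ S z) :
    (∀ H : Finset ℕ, Admissible H → ∃ σ : ℝ, 0 < σ ∧ Tendsto (fun m => Sg H (z m)) atTop (𝓝 σ) ∧
      ∀ᵐ ω ∂μ,
        (∀ ε : ℝ, 0 < ε → ∃ x0 : ℕ, ∀ x y : ℕ, x0 ≤ x → Real.log x ^ (H.card + 2) ≤ y → y ≤ x →
          |(cnt S H ω x y : ℝ) - σ * y / Real.log x ^ H.card| ≤ ε * (σ * y / Real.log x ^ H.card)) ∧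
        limsup (fun x : ℕ => gap S H ω x / ENNReal.ofReal (Real.log x ^ (H.card + 1))) atTop =
          ENNReal.ofReal (1 / σ)) ∧
    ∃ σ : ℝ, 0 < σ ∧ Tendsto (fun m => Sg {0, 2} (z m)) atTop (𝓝 σ) ∧
      ∀ᵐ ω ∂μ, Tendsto (fun n : ℕ => (T S ω n : ℝ) / ((n : ℝ) ^ 2 / Real.log n ^ 2)) atTop (𝓝 (σ / 3)) := by
  have hM' : Pool.Agent.J6H40.WG2.IsModel μ ℱ S z := ⟨hM.adapted, hM.sieved, hM.density⟩
  have key : ∀ H : Finset ℕ, Admissible H → ∃ σ : ℝ, 0 < σ ∧ Tendsto (fun m => Sg H (z m)) atTop (𝓝 σ) ∧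
      ∀ᵐ ω ∂μ,
        (∀ ε : ℝ, 0 < ε → ∃ x0 : ℕ, ∀ x y : ℕ, x0 ≤ x → Real.log x ^ (H.card + 2) ≤ y → y ≤ x →
          |(cnt S H ω x y : ℝ) - σ * y / Real.log x ^ H.card| ≤ ε * (σ * y / Real.log x ^ H.card)) ∧
        limsup (fun x : ℕ => gap S H ω x / ENNReal.ofReal (Real.log x ^ (H.card + 1))) atTop =
          ENNReal.ofReal (1 / σ) := by
    intro H hH
    obtain ⟨σ, hσ, hlim⟩ := (Pool.Agent.J6H40.KT.a_SING H hH).2 z hz
    exact ⟨σ, hσ, hlim, Pool.Agent.J6H40.KT.all H hH z ⟨hz, hz2⟩ σ hσ hlim μ ℱ S hM'⟩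
  refine ⟨key, ?_⟩
  have h02 : Admissible {0, 2} := by
    refine ⟨⟨0, by simp⟩, fun q hq => ?_⟩
    rcases Nat.lt_or_ge q 3 with h3 | h3
    · have h2 : q = 2 := by
        have := hq.two_le
        omega
      subst h2
      decide
    · exact lt_of_le_of_lt (Finset.card_image_le.trans (Finset.card_le_two)) h3
  obtain ⟨σ, hσ, hlim, h⟩ := key {0, 2} h02
  refine ⟨σ, hσ, hlim, ?_⟩
  filter_upwards [h] with ω hω
  exact Pool.Agent.J6H40.KT.a_TN Ω S ω σ hσ hω.1

end Pool.Agent.Results.MP_d610d0_nt.SharpLawsInModels
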